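import Mathlib

set_option autoImplicit false
set_option linter.unusedSectionVars false

namespace Pool.Agent.Results.MP_f60a12_co.DensityHalf

open Filter Topology

/-- The layer `F(n)`: the elements of the free group whose reduced word has length `n`. -/
def sphere (α : Type*) [DecidableEq α] (n : ℕ) : Set (FreeGroup α) :=
  {w | w.toWord.length = n}

/-- The proportion `|B ∩ F(n)| / |F(n)|` of the layer `F(n)` occupied by `B`. -/
noncomputable def layer {α : Type*} [DecidableEq α] (B : Set (FreeGroup α)) (n : ℕ) : ℝ :=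
  ((B ∩ sphere α n).ncard : ℝ) / ((sphere α n).ncard : ℝ)

/-- The density `d^I(B)` on the interval `I = {M, M+1, ..., M+L-1}` of length `L`. -/
noncomputable def dens {α : Type*} [DecidableEq α] (B : Set (FreeGroup α)) (M L : ℕ) : ℝ :=
  (∑ n ∈ Finset.Ico M (M + L), layer B n) / (L : ℝ)

/-- The upper Banach density: the limit superior of `d^I(B)` as both `min I` and `|I|` tend to
infinity. -/
noncomputable def upperDensity {α : Type*} [DecidableEq α] (B : Set (FreeGroup α)) : ℝ :=
  limsup (fun p : ℕ × ℕ => dens B p.1 p.2) atTop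

section Words

variable {α : Type*} [DecidableEq α]

/-- inverse letter -/
def bar (a : α × Bool) : α × Bool := (a.1, !a.2)

lemma bar_bar (a : α × Bool) : bar (bar a) = a := by simp [bar]

lemma bar_ne (a : α × Bool) : bar a ≠ a := by
  intro h
  have := congrArg Prod.snd h
  simp [bar] at this

/-- the group element of a letter -/
def g (a : α × Bool) : FreeGroup α := FreeGroup.mk [a]

lemma g_bar (a : α × Bool) : g (bar a) = (g a)⁻¹ := by
  simp [g, bar, FreeGroup.inv_mk, FreeGroup.invRev]

lemma g_mul_bar (a : α × Bool) (w : FreeGroup α) : g a * (g (bar a) * w) = w := by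
  rw [g_bar]; group

lemma bar_mul_g (a : α × Bool) (w : FreeGroup α) : g (bar a) * (g a * w) = w := by
  rw [g_bar]; group

lemma toWord_ne {a : α × Bool} {w : FreeGroup α} (h : w.toWord.head? ≠ some (bar a)) :
    (g a * w).toWord = a :: w.toWord := by
  rw [g, FreeGroup.toWord_mul, FreeGroup.toWord_mk, FreeGroup.reduce_singleton,
    List.singleton_append, FreeGroup.reduce.cons, FreeGroup.reduce_toWord]
  cases hw : w.toWord with
  | nil => rfl
  | cons b t =>
    rw [hw] at h
    simp only
    rw [if_neg]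
    rintro ⟨h1, h2⟩
    apply h
    simp only [List.head?_cons, Option.some.injEq, bar]
    exact Prod.ext h1.symm (by simp [h2])

lemma toWord_eq {a : α × Bool} {w : FreeGroup α} (h : w.toWord.head? = some (bar a)) :
    (g a * w).toWord = w.toWord.tail := by
  rw [g, FreeGroup.toWord_mul, FreeGroup.toWord_mk, FreeGroup.reduce_singleton,
    List.singleton_append, FreeGroup.reduce.cons, FreeGroup.reduce_toWord]
  cases hw : w.toWord with
  | nil => rw [hw] at h; simp at h
  | cons b t =>
    rw [hw] at h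
    simp only [List.head?_cons, Option.some.injEq] at h
    subst h
    simp [bar]

/-- words starting with the letter `a` -/
def C (a : α × Bool) : Set (FreeGroup α) := {w | w.toWord.head? = some a}

/-- words not starting with the inverse of the letter `a` -/
def N (a : α × Bool) : Set (FreeGroup α) := {w | w.toWord.head? ≠ some (bar a)}

lemma g_mul_mem_C {a : α × Bool} {w : FreeGroup α} (h : w ∈ N a) : g a * w ∈ C a := by
  change (g a * w).toWord.head? = some a
  rw [toWord_ne h]; rfl

lemma bar_mul_mem_N {a : α × Bool} {w : FreeGroup α} (h : w ∈ C a) : g (bar a) * w ∈ N a := by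
  intro h2
  have h1 : w.toWord.head? = some (bar (bar a)) := by rw [bar_bar]; exact h
  have e1 := toWord_eq h1
  have e2 := toWord_eq h2
  rw [g_mul_bar, e1] at e2
  have h3 : w.toWord ≠ [] := by
    intro h0
    rw [h0] at h1; simp at h1
  have := congrArg List.length e2
  simp only [List.length_tail] at this
  have h4 : 0 < w.toWord.length := List.length_pos_iff.2 h3
  omega

lemma length_g_mul {a : α × Bool} {w : FreeGroup α} (h : w ∈ N a) :
    (g a * w).toWord.length = w.toWord.length + 1 := by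
  rw [toWord_ne h]; rfl

/-- `T S u = {w | u w ∈ S}` -/
def T (S : Set (FreeGroup α)) (u : FreeGroup α) : Set (FreeGroup α) := {w | u * w ∈ S}

lemma T_inter_C (S : Set (FreeGroup α)) (u : FreeGroup α) (a : α × Bool) :
    T S u ∩ C a = (fun w => g a * w) '' (T S (u * g a) ∩ N a) := by
  ext w
  constructor
  · rintro ⟨h1, h2⟩
    refine ⟨g (bar a) * w, ⟨?_, bar_mul_mem_N h2⟩, g_mul_bar a w⟩
    change u * g a * (g (bar a) * w) ∈ S
    rw [mul_assoc, g_mul_bar]; exact h1
  · rintro ⟨v, ⟨h1, h2⟩, rfl⟩
    refine ⟨?_, g_mul_mem_C h2⟩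
    change u * (g a * v) ∈ S
    rw [← mul_assoc]; exact h1

lemma image_inter_sphere {a : α × Bool} {B : Set (FreeGroup α)} (hB : B ⊆ N a) (n : ℕ) :
    (fun w => g a * w) '' B ∩ sphere α (n + 1) = (fun w => g a * w) '' (B ∩ sphere α n) := by
  ext w
  constructor
  · rintro ⟨⟨v, hv, rfl⟩, h2⟩
    refine ⟨v, ⟨hv, ?_⟩, rfl⟩
    have h3 : (g a * v).toWord.length = n + 1 := h2
    rw [length_g_mul (hB hv)] at h3
    change v.toWord.length = n
    omega
  · rintro ⟨v, ⟨hv, h2⟩, rfl⟩
    refine ⟨⟨v, hv, rfl⟩, ?_⟩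
    change (g a * v).toWord.length = n + 1
    rw [length_g_mul (hB hv)]
    have h3 : v.toWord.length = n := h2
    omega

lemma ncard_image_inter {a : α × Bool} {B : Set (FreeGroup α)} (hB : B ⊆ N a) (n : ℕ) :
    ((fun w => g a * w) '' B ∩ sphere α (n + 1)).ncard = (B ∩ sphere α n).ncard := by
  rw [image_inter_sphere hB, Set.ncard_image_of_injective _ (mul_right_injective (g a))]

lemma C_eq_image (a : α × Bool) : C a = (fun w => g a * w) '' (N a) := by
  have := T_inter_C (Set.univ : Set (FreeGroup α)) 1 a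
  have e1 : ∀ u, T (Set.univ : Set (FreeGroup α)) u = Set.univ := by
    intro u; ext w; simp [T]
  rwa [e1, e1, Set.univ_inter, Set.univ_inter] at this

end Words

section Counting

variable {α : Type*} [DecidableEq α] [Fintype α]

/-- number of letters minus one -/
def q (α : Type*) [Fintype α] : ℕ := 2 * Fintype.card α - 1

lemma q_pos [Nonempty α] : 1 ≤ q α := by
  have : 0 < Fintype.card α := Fintype.card_pos
  unfold q; omega

lemma card_letters [Nonempty α] : Fintype.card (α × Bool) = q α + 1 := by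
  have : 0 < Fintype.card α := Fintype.card_pos
  simp only [Fintype.card_prod, Fintype.card_bool, q]; omega

lemma sphere_finite (n : ℕ) : (sphere α n).Finite := by
  have h : ({l : List (α × Bool) | l.length = n}).Finite := List.finite_length_eq _ _
  exact h.preimage (FreeGroup.toWord_injective.injOn)

lemma sphere_zero : sphere α 0 = {1} := by
  ext w
  simp [sphere]

omit [DecidableEq α] [Fintype α] in
/-- finitely additive set functions are additive on finite disjoint unions -/
lemma fa_biUnion {X ι : Type*} [DecidableEq ι] (μ : Set X → ℝ) (h0 : μ ∅ = 0)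
    (hadd : ∀ A B, Disjoint A B → μ (A ∪ B) = μ A + μ B) (t : Finset ι) (s : ι → Set X)
    (hs : ∀ i j, i ≠ j → Disjoint (s i) (s j)) :
    μ (⋃ i ∈ t, s i) = ∑ i ∈ t, μ (s i) := by
  induction t using Finset.induction_on with
  | empty => simp [h0]
  | insert a t ha ih =>
    rw [Finset.set_biUnion_insert, hadd, ih, Finset.sum_insert ha]
    rw [Set.disjoint_iUnion₂_right]
    intro i hi
    exact hs a i (by rintro rfl; exact ha hi)

omit [Fintype α] in
lemma C_disjoint (B : Set (FreeGroup α)) (a b : α × Bool) (h : a ≠ b) :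
    Disjoint (B ∩ C a) (B ∩ C b) := by
  rw [Set.disjoint_left]
  rintro w ⟨_, h1⟩ ⟨_, h2⟩
  have h1' : w.toWord.head? = some a := h1
  have h2' : w.toWord.head? = some b := h2
  rw [h1'] at h2'
  exact h (Option.some.inj h2')

omit [Fintype α] in
lemma cases_head (w : FreeGroup α) : w = 1 ∨ ∃ a, w ∈ C a := by
  cases hw : w.toWord with
  | nil => left; exact FreeGroup.toWord_eq_nil_iff.1 hw
  | cons c t => right; exact ⟨c, by change w.toWord.head? = some c; rw [hw]; rfl⟩

lemma decomp_N (μ : Set (FreeGroup α) → ℝ) (h0 : μ ∅ = 0)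
    (hadd : ∀ A B, Disjoint A B → μ (A ∪ B) = μ A + μ B) (h1 : ∀ B ⊆ {1}, μ B = 0)
    (B : Set (FreeGroup α)) (b : α × Bool) :
    μ (B ∩ N b) = ∑ a ∈ Finset.univ.erase (bar b), μ (B ∩ C a) := by
  rw [← fa_biUnion μ h0 hadd _ _ (fun i j hij => C_disjoint B i j hij)]
  have h : B ∩ N b = (B ∩ {1}) ∪ ⋃ a ∈ Finset.univ.erase (bar b), (B ∩ C a) := by
    ext w
    simp only [Set.mem_union, Set.mem_iUnion, Finset.mem_erase, Finset.mem_univ, and_true,
      exists_prop]
    constructor
    · rintro ⟨h1, h2⟩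
      rcases cases_head w with h | ⟨c, hc⟩
      · left; exact ⟨h1, h⟩
      · right
        refine ⟨c, ?_, h1, hc⟩
        rintro rfl
        exact h2 hc
    · rintro (⟨h1, h2⟩ | ⟨c, hc, h1, h2⟩)
      · refine ⟨h1, ?_⟩
        rw [Set.mem_singleton_iff] at h2
        subst h2
        intro h3; simp at h3
      · refine ⟨h1, ?_⟩
        intro h4
        have h5 : w.toWord.head? = some c := h2
        rw [h5] at h4
        exact hc (Option.some.inj h4)
  rw [h, hadd, h1 _ Set.inter_subset_right, zero_add]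
  rw [Set.disjoint_left]
  rintro w ⟨_, h2⟩ h3
  rw [Set.mem_singleton_iff] at h2
  subst h2
  simp only [Set.mem_iUnion, Finset.mem_erase, Finset.mem_univ, and_true, exists_prop] at h3
  obtain ⟨c, _, _, h4⟩ := h3
  have h5 : (1 : FreeGroup α).toWord.head? = some c := h4
  simp at h5

lemma decomp_all (μ : Set (FreeGroup α) → ℝ) (h0 : μ ∅ = 0)
    (hadd : ∀ A B, Disjoint A B → μ (A ∪ B) = μ A + μ B) (B : Set (FreeGroup α)) :
    μ B = μ (B ∩ {1}) + ∑ a, μ (B ∩ C a) := by
  rw [← fa_biUnion μ h0 hadd _ _ (fun i j hij => C_disjoint B i j hij)]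
  have h : B = (B ∩ {1}) ∪ ⋃ a ∈ (Finset.univ : Finset (α × Bool)), (B ∩ C a) := by
    ext w
    simp only [Set.mem_union, Set.mem_iUnion, Finset.mem_univ, exists_prop, true_and]
    constructor
    · intro h1
      rcases cases_head w with h | ⟨c, hc⟩
      · left; exact ⟨h1, h⟩
      · right; exact ⟨c, h1, hc⟩
    · rintro (⟨h1, h2⟩ | ⟨c, h1, h2⟩) <;> exact h1
  conv_lhs => rw [h]
  rw [hadd]
  rw [Set.disjoint_left]
  rintro w ⟨_, h2⟩ h3
  rw [Set.mem_singleton_iff] at h2
  subst h2
  simp only [Set.mem_iUnion, Finset.mem_univ, exists_prop, true_and] at h3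
  obtain ⟨c, _, h4⟩ := h3
  have h5 : (1 : FreeGroup α).toWord.head? = some c := h4
  simp at h5

/-- counting in a layer -/
noncomputable def cnt (n : ℕ) (B : Set (FreeGroup α)) : ℝ := ((B ∩ sphere α n).ncard : ℝ)

lemma cnt_empty (n : ℕ) : cnt n (∅ : Set (FreeGroup α)) = 0 := by simp [cnt]

lemma cnt_add (n : ℕ) (A B : Set (FreeGroup α)) (h : Disjoint A B) :
    cnt n (A ∪ B) = cnt n A + cnt n B := by
  unfold cnt
  rw [Set.union_inter_distrib_right, Set.ncard_union_eq
    (h.mono Set.inter_subset_left Set.inter_subset_left)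
    ((sphere_finite n).subset Set.inter_subset_right)
    ((sphere_finite n).subset Set.inter_subset_right)]
  push_cast; ring

lemma cnt_one (n : ℕ) (B : Set (FreeGroup α)) (hB : B ⊆ {1}) : cnt (n + 1) B = 0 := by
  unfold cnt
  have : B ∩ sphere α (n + 1) = ∅ := by
    rw [Set.eq_empty_iff_forall_notMem]
    rintro w ⟨h1, h2⟩
    have h3 := hB h1
    rw [Set.mem_singleton_iff] at h3
    subst h3
    have h4 : (1 : FreeGroup α).toWord.length = n + 1 := h2
    simp at h4
  rw [this]; simp

lemma cnt_image {a : α × Bool} {B : Set (FreeGroup α)} (hB : B ⊆ N a) (n : ℕ) :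
    cnt (n + 1) ((fun w => g a * w) '' B) = cnt n B := by
  unfold cnt; rw [ncard_image_inter hB]

lemma cnt_C [Nonempty α] (n : ℕ) (a : α × Bool) : cnt (n + 1) (C a) = (q α : ℝ) ^ n := by
  induction n generalizing a with
  | zero =>
    rw [C_eq_image, cnt_image subset_rfl, cnt, sphere_zero]
    have : N a ∩ {(1 : FreeGroup α)} = {1} := by
      rw [Set.inter_eq_right, Set.singleton_subset_iff]
      intro h; simp at h
    rw [this]; simp
  | succ n ih =>
    rw [C_eq_image, cnt_image subset_rfl]
    have h := decomp_N (cnt (n + 1)) (cnt_empty _) (cnt_add _) (fun B hB => cnt_one n B hB)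
      Set.univ a
    simp only [Set.univ_inter] at h
    rw [h, Finset.sum_congr rfl (fun b _ => ih b), Finset.sum_const, Finset.card_erase_of_mem
      (Finset.mem_univ _), Finset.card_univ, card_letters, nsmul_eq_mul]
    simp; ring

lemma card_sphere [Nonempty α] (n : ℕ) :
    ((sphere α (n + 1)).ncard : ℝ) = ((q α : ℝ) + 1) * (q α : ℝ) ^ n := by
  have h := decomp_all (cnt (n + 1)) (cnt_empty _) (cnt_add _) (Set.univ : Set (FreeGroup α))
  rw [cnt_one n _ Set.inter_subset_right, zero_add] at h
  simp only [Set.univ_inter] at h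
  rw [Finset.sum_congr rfl (fun b _ => cnt_C n b), Finset.sum_const, Finset.card_univ,
    card_letters, nsmul_eq_mul] at h
  unfold cnt at h
  rw [Set.univ_inter] at h
  rw [h]; push_cast; ring

lemma layer_eq (B : Set (FreeGroup α)) (n : ℕ) : layer B n = cnt n B / ((sphere α n).ncard : ℝ) :=
  rfl

lemma layer_add (n : ℕ) (A B : Set (FreeGroup α)) (h : Disjoint A B) :
    layer (A ∪ B) n = layer A n + layer B n := by
  rw [layer_eq, layer_eq, layer_eq, cnt_add n A B h, add_div]

lemma layer_nonneg (B : Set (FreeGroup α)) (n : ℕ) : 0 ≤ layer B n := by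
  unfold layer; positivity

lemma layer_le_one (B : Set (FreeGroup α)) (n : ℕ) : layer B n ≤ 1 := by
  unfold layer
  apply div_le_one_of_le₀ _ (by positivity)
  exact_mod_cast Set.ncard_le_ncard Set.inter_subset_right (sphere_finite n)

lemma layer_univ [Nonempty α] (n : ℕ) : layer (Set.univ : Set (FreeGroup α)) (n + 1) = 1 := by
  unfold layer
  rw [Set.univ_inter, card_sphere]
  have : (0 : ℝ) < q α := by exact_mod_cast q_pos
  apply div_self
  positivity

lemma layer_C [Nonempty α] (n : ℕ) (a : α × Bool) :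
    ((q α : ℝ) + 1) * layer (C a) (n + 1) = 1 := by
  rw [layer_eq, cnt_C, card_sphere]
  have : (0 : ℝ) < q α := by exact_mod_cast q_pos
  field_simp

lemma layer_image [Nonempty α] {a : α × Bool} {B : Set (FreeGroup α)} (hB : B ⊆ N a) (n : ℕ) :
    (q α : ℝ) * layer ((fun w => g a * w) '' B) (n + 2) = layer B (n + 1) := by
  rw [layer_eq, layer_eq, cnt_image hB, card_sphere, card_sphere]
  have : (0 : ℝ) < q α := by exact_mod_cast q_pos
  rw [pow_succ]
  field_simp

end Counting

section Mean

variable {α : Type*} [DecidableEq α] [Fintype α]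

/-- the properties of the limiting finitely additive measure -/
structure IsMean (m : Set (FreeGroup α) → ℝ) : Prop where
  nonneg : ∀ B, 0 ≤ m B
  add : ∀ A B, Disjoint A B → m (A ∪ B) = m A + m B
  univ : m Set.univ = 1
  img : ∀ (a : α × Bool) (B : Set (FreeGroup α)), B ⊆ N a →
    (q α : ℝ) * m ((fun w => g a * w) '' B) = m B
  cyl : ∀ a : α × Bool, ((q α : ℝ) + 1) * m (C a) = 1
  bound : ∀ (B : Set (FreeGroup α)) (κ : ℝ), (∀ n, 1 ≤ n → layer B n ≤ κ) → m B ≤ κ

lemma dens_nonneg (B : Set (FreeGroup α)) (M L : ℕ) : 0 ≤ dens B M L := by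
  unfold dens
  apply div_nonneg _ (by positivity)
  exact Finset.sum_nonneg (fun n _ => layer_nonneg B n)

lemma dens_le_of (B : Set (FreeGroup α)) (κ : ℝ) (h : ∀ n, 1 ≤ n → layer B n ≤ κ) (M L : ℕ)
    (hM : 1 ≤ M) (hL : 1 ≤ L) : dens B M L ≤ κ := by
  unfold dens
  have hL' : (0 : ℝ) < L := by exact_mod_cast hL
  rw [div_le_iff₀ hL']
  calc ∑ n ∈ Finset.Ico M (M + L), layer B n ≤ ∑ n ∈ Finset.Ico M (M + L), κ := by
        apply Finset.sum_le_sum
        intro n hn
        rw [Finset.mem_Ico] at hn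
        exact h n (by omega)
    _ = κ * L := by
        rw [Finset.sum_const, Nat.card_Ico, nsmul_eq_mul]
        simp; ring

lemma dens_le_one (B : Set (FreeGroup α)) (M L : ℕ) : dens B M L ≤ 1 := by
  unfold dens
  rcases Nat.eq_zero_or_pos L with h | h
  · subst h; simp
  have hL' : (0 : ℝ) < L := by exact_mod_cast h
  rw [div_le_iff₀ hL']
  calc ∑ n ∈ Finset.Ico M (M + L), layer B n ≤ ∑ n ∈ Finset.Ico M (M + L), (1 : ℝ) := by
        apply Finset.sum_le_sum
        intro n _
        exact layer_le_one B n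
    _ = 1 * L := by
        rw [Finset.sum_const, Nat.card_Ico, nsmul_eq_mul]
        simp

lemma dens_add (A B : Set (FreeGroup α)) (h : Disjoint A B) (M L : ℕ) :
    dens (A ∪ B) M L = dens A M L + dens B M L := by
  unfold dens
  rw [← add_div, ← Finset.sum_add_distrib]
  congr 1
  exact Finset.sum_congr rfl (fun n _ => layer_add n A B h)

lemma dens_const (B : Set (FreeGroup α)) (c : ℝ) (h : ∀ n, layer B (n + 1) = c) (M L : ℕ)
    (hM : 1 ≤ M) (hL : 1 ≤ L) : dens B M L = c := by
  unfold dens
  have hL' : (0 : ℝ) < L := by exact_mod_cast hL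
  rw [div_eq_iff hL'.ne']
  rw [Finset.sum_congr rfl (g := fun _ => c)]
  · rw [Finset.sum_const, Nat.card_Ico, nsmul_eq_mul]
    simp; ring
  · intro n hn
    rw [Finset.mem_Ico] at hn
    obtain ⟨k, rfl⟩ : ∃ k, n = k + 1 := ⟨n - 1, by omega⟩
    exact h k

lemma dens_image [Nonempty α] {a : α × Bool} {B : Set (FreeGroup α)} (hB : B ⊆ N a) (M L : ℕ)
    (hM : 2 ≤ M) (hL : 1 ≤ L) :
    |(q α : ℝ) * dens ((fun w => g a * w) '' B) M L - dens B M L| ≤ 1 / L := by
  unfold dens
  have hL' : (0 : ℝ) < L := by exact_mod_cast hL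
  rw [← mul_div_assoc, ← sub_div, abs_div, abs_of_pos hL']
  apply div_le_div_of_nonneg_right _ hL'.le
  rw [Finset.mul_sum]
  have h1 : ∑ n ∈ Finset.Ico M (M + L), (q α : ℝ) * layer ((fun w => g a * w) '' B) n
      = ∑ n ∈ Finset.Ico M (M + L), layer B (n - 1) := by
    apply Finset.sum_congr rfl
    intro n hn
    rw [Finset.mem_Ico] at hn
    obtain ⟨k, rfl⟩ : ∃ k, n = k + 2 := ⟨n - 2, by omega⟩
    rw [layer_image hB]
    rfl
  rw [h1, ← Finset.sum_sub_distrib]
  have h2 : ∀ K : ℕ, ∑ n ∈ Finset.Ico M (M + K), (layer B (n - 1) - layer B n)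
      = layer B (M - 1) - layer B (M + K - 1) := by
    intro K
    induction K with
    | zero => simp
    | succ K ih =>
      rw [← add_assoc, Finset.sum_Ico_succ_top (by omega), ih]
      have e1 : M + K + 1 - 1 = M + K := by omega
      rw [e1]; ring
  rw [h2]
  have a1 := layer_nonneg B (M - 1)
  have a2 := layer_le_one B (M - 1)
  have a3 := layer_nonneg B (M + L - 1)
  have a4 := layer_le_one B (M + L - 1)
  rw [abs_le]; constructor <;> linarith

/-- existence of the limiting finitely additive measure along a sequence of intervals -/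
lemma exists_mean [Nonempty α] (p : ℕ → ℕ × ℕ) (hp : Tendsto p atTop atTop)
    (S : Set (FreeGroup α)) (c : ℝ) (hS : ∀ ε > 0, ∀ᶠ j in atTop, c - ε ≤ dens S (p j).1 (p j).2) :
    ∃ m : Set (FreeGroup α) → ℝ, IsMean m ∧ c ≤ m S := by
  have hex : ∀ B : Set (FreeGroup α), ∃ x : ℝ,
      Tendsto (fun j => dens B (p j).1 (p j).2) (hyperfilter ℕ : Filter ℕ) (𝓝 x) := by
    intro B
    have hc : IsCompact (Set.Icc (0 : ℝ) 1) := isCompact_Icc
    have := hc.ultrafilter_le_nhds ((hyperfilter ℕ).map (fun j => dens B (p j).1 (p j).2)) (by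
      rw [Ultrafilter.coe_map, Filter.le_principal_iff, Filter.mem_map]
      exact Filter.univ_mem' (fun j => ⟨dens_nonneg B _ _, dens_le_one B _ _⟩))
    obtain ⟨x, _, hx⟩ := this
    exact ⟨x, by rwa [Ultrafilter.coe_map] at hx⟩
  choose m hm using hex
  have hU : (hyperfilter ℕ : Filter ℕ) ≤ atTop := by
    have := hyperfilter_le_cofinite (α := ℕ)
    rwa [Nat.cofinite_eq_atTop] at this
  have hp2 : ∀ K, ∀ᶠ j in (hyperfilter ℕ : Filter ℕ), K ≤ (p j).1 ∧ K ≤ (p j).2 := by
    intro K
    have h1 : ∀ᶠ j in atTop, ((K, K) : ℕ × ℕ) ≤ p j := hp.eventually_ge_atTop _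
    have h2 : ∀ᶠ j in (hyperfilter ℕ : Filter ℕ), ((K, K) : ℕ × ℕ) ≤ p j := hU h1
    exact h2.mono (fun j hj => ⟨hj.1, hj.2⟩)
  refine ⟨m, ⟨?_, ?_, ?_, ?_, ?_, ?_⟩, ?_⟩
  · intro B
    exact ge_of_tendsto' (hm B) (fun j => dens_nonneg B _ _)
  · intro A B hAB
    refine tendsto_nhds_unique (hm (A ∪ B)) ?_
    have := (hm A).add (hm B)
    refine this.congr (fun j => ?_)
    rw [dens_add A B hAB]
  · refine tendsto_nhds_unique (hm _) ?_
    refine tendsto_const_nhds.congr' ?_
    filter_upwards [hp2 1] with j hj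
    exact (dens_const _ 1 (fun n => layer_univ n) _ _ hj.1 hj.2).symm
  · intro a B hB
    have h1 := ((hm ((fun w => g a * w) '' B)).const_mul (q α : ℝ)).sub (hm B)
    have h2 : Tendsto (fun j => (q α : ℝ) * dens ((fun w => g a * w) '' B) (p j).1 (p j).2
        - dens B (p j).1 (p j).2) (hyperfilter ℕ : Filter ℕ) (𝓝 0) := by
      rw [Metric.tendsto_nhds]
      intro ε hε
      obtain ⟨K, hK⟩ := exists_nat_gt (1 / ε)
      filter_upwards [hp2 (K + 2)] with j hj
      rw [Real.dist_eq, sub_zero]
      have hL : (1 : ℝ) / ε < ((p j).2 : ℝ) := by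
        have : ((K + 2 : ℕ) : ℝ) ≤ ((p j).2 : ℝ) := by exact_mod_cast hj.2
        push_cast at this
        linarith
      have hpos : (0 : ℝ) < ((p j).2 : ℝ) := lt_trans (by positivity) hL
      calc _ ≤ 1 / ((p j).2 : ℝ) := dens_image hB _ _ (by omega) (by omega)
        _ < ε := by
          rw [div_lt_iff₀ hpos]
          rw [div_lt_iff₀ hε] at hL
          linarith
    have := tendsto_nhds_unique h1 h2
    linarith
  · intro a
    have h1 := (hm (C a)).const_mul ((q α : ℝ) + 1)
    refine tendsto_nhds_unique h1 ?_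
    refine tendsto_const_nhds.congr' ?_
    filter_upwards [hp2 1] with j hj
    have hq : ((q α : ℝ) + 1) ≠ 0 := by positivity
    rw [dens_const (C a) (1 / ((q α : ℝ) + 1)) (fun n => ?_) _ _ hj.1 hj.2]
    · field_simp
    · have := layer_C n a
      field_simp
      linarith
  · intro B κ h
    refine le_of_tendsto (hm B) ?_
    filter_upwards [hp2 1] with j hj
    exact dens_le_of B κ h _ _ hj.1 hj.2
  · refine le_of_forall_pos_le_add (fun ε hε => ?_)
    have : c - ε ≤ m S := ge_of_tendsto (hm S) (hU (hS ε hε))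
    linarith

namespace IsMean

variable {m : Set (FreeGroup α) → ℝ}

lemma empty (hm : IsMean m) : m ∅ = 0 := by
  have := hm.add ∅ ∅ (by simp)
  simp at this; exact this

lemma mono (hm : IsMean m) {A B : Set (FreeGroup α)} (h : A ⊆ B) : m A ≤ m B := by
  have h1 := hm.add A (B \ A) Set.disjoint_sdiff_right
  rw [Set.union_sdiff_cancel h] at h1
  have := hm.nonneg (B \ A)
  linarith

lemma compl (hm : IsMean m) (A : Set (FreeGroup α)) : m A + m Aᶜ = 1 := by
  rw [← hm.add A Aᶜ disjoint_compl_right, Set.union_compl_self, hm.univ]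

lemma union_null (hm : IsMean m) {A B : Set (FreeGroup α)} (hA : m A = 0) (hB : m B = 0) :
    m (A ∪ B) = 0 := by
  have h1 := hm.add A (B \ A) Set.disjoint_sdiff_right
  rw [Set.union_sdiff_self] at h1
  have h2 := hm.mono (A := B \ A) (B := B) Set.sdiff_subset
  have h3 := hm.nonneg (B \ A)
  have h4 := hm.nonneg (A ∪ B)
  linarith

lemma null_of_subset (hm : IsMean m) {A B : Set (FreeGroup α)} (h : A ⊆ B) (hB : m B = 0) :
    m A = 0 := by
  have h1 := hm.mono h
  have h2 := hm.nonneg A
  linarith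

lemma one_null [Nonempty α] (hm : IsMean m) (B : Set (FreeGroup α)) (hB : B ⊆ {1}) : m B = 0 := by
  apply hm.null_of_subset hB
  have h := decomp_all m hm.empty hm.add (Set.univ : Set (FreeGroup α))
  rw [hm.univ] at h
  simp only [Set.univ_inter] at h
  have hq : ((q α : ℝ) + 1) ≠ 0 := by positivity
  have h2 : ∀ a : α × Bool, m (C a) = 1 / ((q α : ℝ) + 1) := by
    intro a
    have := hm.cyl a
    field_simp; linarith
  rw [Finset.sum_congr rfl (fun a _ => h2 a), Finset.sum_const, Finset.card_univ, card_letters,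
    nsmul_eq_mul] at h
  push_cast at h
  rw [mul_one_div_cancel hq] at h
  linarith

lemma sum_C [Nonempty α] (hm : IsMean m) (B : Set (FreeGroup α)) :
    m B = ∑ a, m (B ∩ C a) := by
  have h := decomp_all m hm.empty hm.add B
  rwa [hm.one_null _ Set.inter_subset_right, zero_add] at h

lemma sum_N [Nonempty α] (hm : IsMean m) (B : Set (FreeGroup α)) (b : α × Bool) :
    m (B ∩ N b) = ∑ a ∈ Finset.univ.erase (bar b), m (B ∩ C a) :=
  decomp_N m hm.empty hm.add (fun B hB => hm.one_null B hB) B b

lemma T_C (hm : IsMean m) (S : Set (FreeGroup α)) (u : FreeGroup α) (a : α × Bool) :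
    (q α : ℝ) * m (T S u ∩ C a) = m (T S (u * g a) ∩ N a) := by
  rw [T_inter_C, hm.img a _ Set.inter_subset_right]

/-- translates of null sets by letters are null -/
lemma null_letter [Nonempty α] (hm : IsMean m) {B : Set (FreeGroup α)} (hB : m B = 0)
    (a : α × Bool) : m {w | g a * w ∈ B} = 0 := by
  have hq : (0 : ℝ) < q α := by exact_mod_cast q_pos
  -- the preimage is the union of its parts in N a and in C (bar a)
  have e : {w | g a * w ∈ B} = T B (g a) := rfl
  rw [e]
  have h1 : m (T B (g a) ∩ N a) = 0 := by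
    have := hm.T_C B 1 a
    rw [one_mul] at this
    rw [← this, hm.null_of_subset (A := T B 1 ∩ C a) (B := B) _ hB, mul_zero]
    rintro w ⟨h, _⟩
    simpa [T] using h
  have h2 : m (T B (g a) ∩ C (bar a)) = 0 := by
    have := hm.T_C B (g a) (bar a)
    rw [g_bar, mul_inv_cancel] at this
    rw [hm.null_of_subset (A := T B 1 ∩ N (bar a)) (B := B) _ hB] at this
    · rcases mul_eq_zero.1 this with h | h
      · exact absurd h hq.ne'
      · exact h
    · rintro w ⟨h, _⟩
      simpa [T] using h
  apply hm.null_of_subset _ (hm.union_null h1 h2)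
  intro w hw
  by_cases h : w.toWord.head? = some (bar a)
  · right; exact ⟨hw, h⟩
  · left; exact ⟨hw, h⟩

lemma null_translate [Nonempty α] (hm : IsMean m) (u : FreeGroup α) :
    ∀ B : Set (FreeGroup α), m B = 0 → m {w | u * w ∈ B} = 0 := by
  have key : ∀ l : List (α × Bool), ∀ B : Set (FreeGroup α), m B = 0 →
      m {w | FreeGroup.mk l * w ∈ B} = 0 := by
    intro l
    induction l with
    | nil =>
      intro B hB
      have : (FreeGroup.mk ([] : List (α × Bool))) = 1 := rfl
      simp only [this, one_mul]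
      exact hB
    | cons a l ih =>
      intro B hB
      have h1 := hm.null_letter hB a
      have h2 := ih _ h1
      have e : {w | FreeGroup.mk (a :: l) * w ∈ B}
          = {w | FreeGroup.mk l * w ∈ {w | g a * w ∈ B}} := by
        ext w
        have : FreeGroup.mk (a :: l) = g a * FreeGroup.mk l := by
          simp [g]
        simp only [Set.mem_ofPred_eq, this, mul_assoc]
      rw [e]; exact h2
  have := key u.toWord
  rwa [FreeGroup.mk_toWord] at this

/-- the normalised density of `T S u` in `N b` -/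
noncomputable def D (m : Set (FreeGroup α) → ℝ) (S : Set (FreeGroup α)) (u : FreeGroup α)
    (b : α × Bool) : ℝ := ((q α : ℝ) + 1) / (q α : ℝ) * m (T S u ∩ N b)

lemma D_C [Nonempty α] (hm : IsMean m) (S : Set (FreeGroup α)) (u : FreeGroup α) (a : α × Bool) :
    ((q α : ℝ) + 1) * m (T S u ∩ C a) = D m S (u * g a) a := by
  have hq : (0 : ℝ) < q α := by exact_mod_cast q_pos
  unfold D
  rw [← hm.T_C]
  field_simp

lemma D_sum [Nonempty α] (hm : IsMean m) (S : Set (FreeGroup α)) (u : FreeGroup α)
    (b : α × Bool) :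
    (q α : ℝ) * D m S u b = ∑ a ∈ Finset.univ.erase (bar b), D m S (u * g a) a := by
  have hq : (0 : ℝ) < q α := by exact_mod_cast q_pos
  rw [Finset.sum_congr rfl (fun a _ => (hm.D_C S u a).symm), ← Finset.mul_sum, ← hm.sum_N]
  unfold D
  field_simp

lemma D_nonneg [Nonempty α] (hm : IsMean m) (S : Set (FreeGroup α)) (u : FreeGroup α)
    (b : α × Bool) : 0 ≤ D m S u b := by
  unfold D
  have := hm.nonneg (T S u ∩ N b)
  positivity

lemma N_mass [Nonempty α] (hm : IsMean m) (b : α × Bool) :
    ((q α : ℝ) + 1) * m (N b) = q α := by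
  have h := hm.sum_N Set.univ b
  simp only [Set.univ_inter] at h
  rw [h, Finset.mul_sum, Finset.sum_congr rfl (fun a _ => hm.cyl a), Finset.sum_const,
    Finset.card_erase_of_mem (Finset.mem_univ _), Finset.card_univ, card_letters, nsmul_eq_mul]
  simp

lemma D_le_one [Nonempty α] (hm : IsMean m) (S : Set (FreeGroup α)) (u : FreeGroup α)
    (b : α × Bool) : D m S u b ≤ 1 := by
  have hq : (0 : ℝ) < q α := by exact_mod_cast q_pos
  have h1 := hm.N_mass b
  have h2 := hm.mono (A := T S u ∩ N b) (B := N b) Set.inter_subset_right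
  unfold D
  rw [div_mul_eq_mul_div, div_le_one hq]
  calc ((q α : ℝ) + 1) * m (T S u ∩ N b) ≤ ((q α : ℝ) + 1) * m (N b) := by
        apply mul_le_mul_of_nonneg_left h2; positivity
    _ = q α := h1

/-- counting lemma along descendants -/
lemma count_desc [Nonempty α] (hm : IsMean m) (S : Set (FreeGroup α)) (M ε : ℝ)
    (hM : ∀ u b, D m S u b ≤ M) (hS : ∀ x ∈ S, ∀ b, D m S x b ≤ M - ε) (n : ℕ) :
    ∀ u b, (q α : ℝ) ^ n * D m S u b ≤ (q α : ℝ) ^ n * M - ε * cnt n (T S u ∩ N b) := by
  induction n with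
  | zero =>
    intro u b
    rw [pow_zero, one_mul, one_mul]
    unfold cnt
    rw [sphere_zero]
    by_cases hu : u ∈ S
    · have : T S u ∩ N b ∩ {(1 : FreeGroup α)} = {1} := by
        rw [Set.inter_eq_right, Set.singleton_subset_iff]
        refine ⟨?_, ?_⟩
        · change u * 1 ∈ S
          rwa [mul_one]
        · intro h; simp at h
      rw [this]
      simp only [Set.ncard_singleton, Nat.cast_one, mul_one]
      exact hS u hu b
    · have : T S u ∩ N b ∩ {(1 : FreeGroup α)} = ∅ := by
        rw [Set.eq_empty_iff_forall_notMem]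
        rintro w ⟨⟨h1, _⟩, h2⟩
        rw [Set.mem_singleton_iff] at h2
        subst h2
        change u * 1 ∈ S at h1
        rw [mul_one] at h1
        exact hu h1
      rw [this]
      simp only [Set.ncard_empty, Nat.cast_zero, mul_zero, sub_zero]
      exact hM u b
  | succ n ih =>
    intro u b
    have h1 := hm.D_sum S u b
    have h2 := decomp_N (cnt (n + 1)) (cnt_empty _) (cnt_add _) (fun B hB => cnt_one n B hB)
      (T S u) b
    have h3 : ∀ a : α × Bool, cnt (n + 1) (T S u ∩ C a) = cnt n (T S (u * g a) ∩ N a) := by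
      intro a
      rw [T_inter_C, cnt_image Set.inter_subset_right]
    rw [Finset.sum_congr rfl (fun a _ => h3 a)] at h2
    rw [h2, pow_succ, mul_assoc, h1, Finset.mul_sum, Finset.mul_sum]
    calc ∑ a ∈ Finset.univ.erase (bar b), (q α : ℝ) ^ n * D m S (u * g a) a
        ≤ ∑ a ∈ Finset.univ.erase (bar b),
          ((q α : ℝ) ^ n * M - ε * cnt n (T S (u * g a) ∩ N a)) :=
          Finset.sum_le_sum (fun a _ => ih (u * g a) a)
      _ = _ := by
        rw [Finset.sum_sub_distrib, Finset.sum_const,
          Finset.card_erase_of_mem (Finset.mem_univ _), Finset.card_univ, card_letters,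
          nsmul_eq_mul]
        simp only [Nat.add_sub_cancel]
        ring

/-- the supremum of the densities is controlled by the elements of `S` -/
lemma sup_le [Nonempty α] (hm : IsMean m) (S : Set (FreeGroup α)) (M ε : ℝ) (hε : 0 < ε)
    (hM : ∀ u b, D m S u b ≤ M) (hS : ∀ x ∈ S, ∀ b, D m S x b ≤ M - ε) (u : FreeGroup α)
    (b : α × Bool) : (1 + ε) * D m S u b ≤ M := by
  have hq : (0 : ℝ) < q α := by exact_mod_cast q_pos
  have hq1 : (0 : ℝ) < (q α : ℝ) + 1 := by positivity
  have hDM := hM u b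
  have h : m (T S u ∩ N b) ≤ (q α : ℝ) / ((q α : ℝ) + 1) * ((M - D m S u b) / ε) := by
    apply hm.bound
    intro n hn
    obtain ⟨k, rfl⟩ : ∃ k, n = k + 1 := ⟨n - 1, by omega⟩
    have h1 := hm.count_desc S M ε hM hS (k + 1) u b
    rw [layer_eq, card_sphere, div_le_iff₀ (by positivity)]
    have h2 : cnt (k + 1) (T S u ∩ N b) ≤ (q α : ℝ) ^ (k + 1) * ((M - D m S u b) / ε) := by
      rw [mul_div_assoc', le_div_iff₀ hε]
      linarith
    refine h2.trans (le_of_eq ?_)
    rw [pow_succ]
    field_simp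
  have h2 : D m S u b ≤ (M - D m S u b) / ε := by
    unfold D at h ⊢
    calc _ ≤ ((q α : ℝ) + 1) / (q α : ℝ) * ((q α : ℝ) / ((q α : ℝ) + 1) *
          ((M - ((q α : ℝ) + 1) / (q α : ℝ) * m (T S u ∩ N b)) / ε)) := by
          apply mul_le_mul_of_nonneg_left h; positivity
      _ = _ := by field_simp
  rw [le_div_iff₀ hε] at h2
  linarith

end IsMean

/-- Every left translate of a product-free set of density at least one half has density
exactly one half. -/
lemma half [Nonempty α] {m : Set (FreeGroup α) → ℝ} (hm : IsMean m) (S : Set (FreeGroup α))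
    (hS : ∀ x ∈ S, ∀ y ∈ S, x * y ∉ S) (hd : 1 / 2 ≤ m S) (u : FreeGroup α) :
    m (T S u) = 1 / 2 := by
  have hq : (0 : ℝ) < q α := by exact_mod_cast q_pos
  have hq1 : (0 : ℝ) < (q α : ℝ) + 1 := by positivity
  have T1 : T S 1 = S := by ext w; simp [T]
  have hdisj : ∀ x ∈ S, Disjoint (T S x) S := by
    intro x hx
    rw [Set.disjoint_left]
    intro w h1 h2
    exact hS x hx w h2 h1
  -- induction principle
  have ind : (∀ v a, m (T S v) = 1 / 2 → m (T S (v * g a)) = 1 / 2) → m S = 1 / 2 →
      ∀ l : List (α × Bool), ∀ v, m (T S v) = 1 / 2 → m (T S (v * FreeGroup.mk l)) = 1 / 2 := by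
    intro h1 h2 l
    induction l with
    | nil =>
      intro v hv
      have : (FreeGroup.mk ([] : List (α × Bool))) = 1 := rfl
      rw [this, mul_one]; exact hv
    | cons a l ih =>
      intro v hv
      have : FreeGroup.mk (a :: l) = g a * FreeGroup.mk l := by simp [g]
      rw [this, ← mul_assoc]
      exact ih _ (h1 v a hv)
  suffices H : (∀ v a, m (T S v) = 1 / 2 → m (T S (v * g a)) = 1 / 2) ∧ m S = 1 / 2 by
    have := ind H.1 H.2 u.toWord 1 (by rw [T1]; exact H.2)
    rwa [FreeGroup.mk_toWord, one_mul] at this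
  have split : ∀ (B : Set (FreeGroup α)) (b : α × Bool),
      m B = m (B ∩ N b) + m (B ∩ C (bar b)) := by
    intro B b
    rw [← hm.add]
    · congr 1
      ext w
      by_cases h : w.toWord.head? = some (bar b)
      · simp [N, C, h]
      · simp [N, C, h]
    · rw [Set.disjoint_left]
      rintro w ⟨_, h1⟩ ⟨_, h2⟩
      exact h1 h2
  have back : ∀ v b, m (T S (v * g b) ∩ C (bar b)) * (q α : ℝ) = m (T S v ∩ N (bar b)) := by
    intro v b
    have := hm.T_C S (v * g b) (bar b)
    rw [g_bar, mul_inv_cancel_right] at this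
    linarith
  have hne : S.Nonempty := by
    rcases S.eq_empty_or_nonempty with h | h
    · rw [h, hm.empty] at hd; norm_num at hd
    · exact h
  rcases Nat.lt_or_ge 1 (q α) with hq2 | hq2
  · -- several generators
    have hq2' : (1 : ℝ) < q α := by exact_mod_cast hq2
    set M : ℝ := sSup (Set.range (fun p : FreeGroup α × (α × Bool) => IsMean.D m S p.1 p.2))
      with hMdef
    have hbdd : BddAbove (Set.range (fun p : FreeGroup α × (α × Bool) =>
        IsMean.D m S p.1 p.2)) := by
      refine ⟨1, ?_⟩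
      rintro _ ⟨p, rfl⟩
      exact hm.D_le_one S _ _
    have hM : ∀ v b, IsMean.D m S v b ≤ M := by
      intro v b
      exact le_csSup hbdd ⟨(v, b), rfl⟩
    have hsum : ∀ v, ((q α : ℝ) + 1) * m (T S v) = ∑ a, IsMean.D m S (v * g a) a := by
      intro v
      rw [hm.sum_C (T S v), Finset.mul_sum]
      exact Finset.sum_congr rfl (fun a _ => hm.D_C S v a)
    have hMd : m S ≤ M := by
      have h1 := hsum 1
      rw [T1] at h1
      have h2 : ∑ a : α × Bool, IsMean.D m S (1 * g a) a ≤ ∑ _a : α × Bool, M :=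
        Finset.sum_le_sum (fun a _ => hM _ _)
      rw [Finset.sum_const, Finset.card_univ, card_letters, nsmul_eq_mul] at h2
      push_cast at h2
      rw [← h1] at h2
      exact le_of_mul_le_mul_left h2 hq1
    -- bound on S
    have hSb : ∀ x ∈ S, ∀ b, (q α : ℝ) * IsMean.D m S x b
        ≤ (q α : ℝ) - (((q α : ℝ) + 1) * m S - M) := by
      intro x hx b
      have h1 : m (T S x ∩ N b) + m (S ∩ N b) ≤ m (N b) := by
        rw [← hm.add]
        · apply hm.mono
          rintro w (h | h) <;> exact h.2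
        · exact (hdisj x hx).mono Set.inter_subset_left Set.inter_subset_left
      have h2 := hm.N_mass b
      have h3 := split S b
      have h4 := hm.D_C S 1 (bar b)
      rw [T1] at h4
      have h5 := hM (1 * g (bar b)) (bar b)
      have h6 : (q α : ℝ) * IsMean.D m S x b = ((q α : ℝ) + 1) * m (T S x ∩ N b) := by
        unfold IsMean.D; field_simp
      rw [h6]
      have h7 : ((q α : ℝ) + 1) * (m (T S x ∩ N b) + m (S ∩ N b)) ≤ ((q α : ℝ) + 1) * m (N b) :=
        mul_le_mul_of_nonneg_left h1 hq1.le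
      have h8 : ((q α : ℝ) + 1) * m S = ((q α : ℝ) + 1) * m (S ∩ N b)
        + ((q α : ℝ) + 1) * m (S ∩ C (bar b)) := by
        rw [← mul_add, ← h3]
      rw [mul_add] at h7
      linarith
    have hMS : (q α : ℝ) * M ≤ (q α : ℝ) - (((q α : ℝ) + 1) * m S - M) := by
      by_contra hcon
      push Not at hcon
      set ε : ℝ := M - ((q α : ℝ) - (((q α : ℝ) + 1) * m S - M)) / (q α : ℝ) with hεdef
      have hε : 0 < ε := by
        rw [hεdef, sub_pos, div_lt_iff₀ hq]
        linarith
      have hS' : ∀ x ∈ S, ∀ b, IsMean.D m S x b ≤ M - ε := by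
        intro x hx b
        have := hSb x hx b
        have e : M - ε = ((q α : ℝ) - (((q α : ℝ) + 1) * m S - M)) / (q α : ℝ) := by
          rw [hεdef]; ring
        rw [e, le_div_iff₀ hq]
        linarith
      have h1 := hm.sup_le S M ε hε hM hS'
      have h2 : M ≤ M / (1 + ε) := by
        apply csSup_le
        · exact ⟨_, ⟨((1 : FreeGroup α), (Classical.arbitrary α, true)), rfl⟩⟩
        · rintro _ ⟨p, rfl⟩
          rw [le_div_iff₀ (by positivity)]
          have := h1 p.1 p.2
          simp only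
          linarith
      rw [le_div_iff₀ (by positivity)] at h2
      have h3 : M * ε ≤ 0 := by linarith
      have h4 : 0 < M := by linarith
      have : 0 < M * ε := by positivity
      linarith
    -- conclusions
    have hM2 : M ≤ 1 / 2 := by
      have h1 : ((q α : ℝ) - 1) * M ≤ ((q α : ℝ) - 1) * (1 / 2) := by nlinarith
      exact le_of_mul_le_mul_left h1 (by linarith)
    have hmS : m S = 1 / 2 := le_antisymm (by linarith) hd
    refine ⟨?_, hmS⟩
    intro v b hv
    -- all cylinder densities of T S v are one half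
    have hle : ∀ a, m (T S v ∩ C a) ≤ 1 / 2 / ((q α : ℝ) + 1) := by
      intro a
      rw [le_div_iff₀ hq1]
      have := hm.D_C S v a
      have := hM (v * g a) a
      linarith
    have heq : ∀ a, m (T S v ∩ C a) = 1 / 2 / ((q α : ℝ) + 1) := by
      intro a
      by_contra hne'
      have hlt : m (T S v ∩ C a) < 1 / 2 / ((q α : ℝ) + 1) := lt_of_le_of_ne (hle a) hne'
      have h1 := hm.sum_C (T S v)
      have h2 : ∑ a : α × Bool, m (T S v ∩ C a) < ∑ _a : α × Bool, 1 / 2 / ((q α : ℝ) + 1) :=
        Finset.sum_lt_sum (fun a _ => hle a) ⟨a, Finset.mem_univ _, hlt⟩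
      rw [Finset.sum_const, Finset.card_univ, card_letters, nsmul_eq_mul] at h2
      push_cast at h2
      rw [← h1, hv] at h2
      have : ((q α : ℝ) + 1) * (1 / 2 / ((q α : ℝ) + 1)) = 1 / 2 := by field_simp
      rw [this] at h2
      exact lt_irrefl _ h2
    rw [split _ b, ← hm.T_C S v b, heq b]
    have h1 := back v b
    rw [hm.sum_N, Finset.sum_congr rfl (fun a _ => heq a), Finset.sum_const,
      Finset.card_erase_of_mem (Finset.mem_univ _), Finset.card_univ, card_letters,
      nsmul_eq_mul] at h1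
    simp only [Nat.add_sub_cancel] at h1
    have h2 : m (T S (v * g b) ∩ C (bar b)) = 1 / 2 / ((q α : ℝ) + 1) := by
      have h3 : (q α : ℝ) * m (T S (v * g b) ∩ C (bar b))
        = (q α : ℝ) * (1 / 2 / ((q α : ℝ) + 1)) := by linarith
      exact mul_left_cancel₀ hq.ne' h3
    rw [h2]
    field_simp
  · -- one generator: the mean is invariant
    have hq3 : q α = 1 := le_antisymm hq2 q_pos
    have hq3' : (q α : ℝ) = 1 := by exact_mod_cast hq3
    have inv : ∀ v b, m (T S (v * g b)) = m (T S v) := by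
      intro v b
      rw [split (T S (v * g b)) b, split (T S v) (bar b), bar_bar]
      have h1 := back v b
      have h2 := hm.T_C S v b
      rw [hq3'] at h1 h2
      linarith
    have inv2 : ∀ l : List (α × Bool), ∀ v, m (T S (v * FreeGroup.mk l)) = m (T S v) := by
      intro l
      induction l with
      | nil =>
        intro v
        have : (FreeGroup.mk ([] : List (α × Bool))) = 1 := rfl
        rw [this, mul_one]
      | cons a l ih =>
        intro v
        have : FreeGroup.mk (a :: l) = g a * FreeGroup.mk l := by simp [g]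
        rw [this, ← mul_assoc, ih, inv]
    obtain ⟨x, hx⟩ := hne
    have h1 : m (T S x) = m S := by
      have := inv2 x.toWord 1
      rwa [FreeGroup.mk_toWord, one_mul, T1] at this
    have h2 : m (T S x) + m S ≤ 1 := by
      rw [← hm.add _ _ (hdisj x hx), ← hm.univ]
      exact hm.mono (Set.subset_univ _)
    have hmS : m S = 1 / 2 := by linarith
    refine ⟨fun v a hv => ?_, hmS⟩
    rw [inv, hv]

/-- the elements of the free group which preserve `S` up to a null set -/
def stab [Nonempty α] {m : Set (FreeGroup α) → ℝ} (hm : IsMean m) (S : Set (FreeGroup α)) :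
    Subgroup (FreeGroup α) where
  carrier := {k | m {w | ¬ (k * w ∈ S ↔ w ∈ S)} = 0}
  one_mem' := by
    change m {w | ¬ (1 * w ∈ S ↔ w ∈ S)} = 0
    simp only [one_mul, iff_self, not_true_eq_false]
    exact hm.empty
  mul_mem' := by
    intro a b ha hb
    change m {w | ¬ (a * w ∈ S ↔ w ∈ S)} = 0 at ha
    change m {w | ¬ (b * w ∈ S ↔ w ∈ S)} = 0 at hb
    change m {w | ¬ (a * b * w ∈ S ↔ w ∈ S)} = 0
    have h1 := hm.null_translate b _ ha
    apply hm.null_of_subset _ (hm.union_null h1 hb)
    intro w hw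
    by_contra h
    simp only [Set.mem_union, Set.mem_ofPred_eq, not_or, not_not] at h
    apply hw
    rw [mul_assoc, h.1, h.2]
  inv_mem' := by
    intro a ha
    change m {w | ¬ (a * w ∈ S ↔ w ∈ S)} = 0 at ha
    change m {w | ¬ (a⁻¹ * w ∈ S ↔ w ∈ S)} = 0
    have h1 := hm.null_translate a⁻¹ _ ha
    apply hm.null_of_subset _ h1
    intro w hw h
    apply hw
    rw [mul_inv_cancel_left] at h
    exact h.symm

/-- the final step: a product-free set all of whose left translates have density one half
lies in the non-trivial coset of a subgroup of index two -/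
lemma coset [Nonempty α] {m : Set (FreeGroup α) → ℝ} (hm : IsMean m) (S : Set (FreeGroup α))
    (hS : ∀ x ∈ S, ∀ y ∈ S, x * y ∉ S) (hh : ∀ u, m (T S u) = 1 / 2) :
    ∃ K : Subgroup (FreeGroup α), K.index = 2 ∧ ∀ x ∈ S, x ∉ K := by
  have T1 : T S 1 = S := by ext w; simp [T]
  have hmS : m S = 1 / 2 := by rw [← T1]; exact hh 1
  have hne : S.Nonempty := by
    rcases S.eq_empty_or_nonempty with h | h
    · rw [h, hm.empty] at hmS; norm_num at hmS
    · exact h
  have odd : ∀ x ∈ S, m {w | ¬ (x * w ∈ S ↔ w ∉ S)} = 0 := by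
    intro x hx
    have h1 : m (T S x ∪ S) = 1 := by
      rw [hm.add, hh, hmS]
      · norm_num
      · rw [Set.disjoint_left]
        intro w h1 h2
        exact hS x hx w h2 h1
    have h2 := hm.compl (T S x ∪ S)
    rw [h1] at h2
    have h3 : m (T S x ∪ S)ᶜ = 0 := by linarith
    apply hm.null_of_subset _ h3
    intro w hw h
    apply hw
    rcases h with h | h
    · exact ⟨fun _ h2 => hS x hx w h2 h, fun _ => h⟩
    · exact ⟨fun h2 => absurd h2 (hS x hx w h), fun h2 => absurd h h2⟩
  obtain ⟨o, ho⟩ := hne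
  set K := stab hm S with hK
  have memK : ∀ k, k ∈ K ↔ m {w | ¬ (k * w ∈ S ↔ w ∈ S)} = 0 := fun k => Iff.rfl
  have oK : o ∉ K := by
    intro h
    rw [memK] at h
    have h2 := hm.union_null h (odd o ho)
    have h3 : {w | ¬ (o * w ∈ S ↔ w ∈ S)} ∪ {w | ¬ (o * w ∈ S ↔ w ∉ S)} = Set.univ := by
      ext w
      simp only [Set.mem_union, Set.mem_ofPred_eq, Set.mem_univ, iff_true]
      by_cases h1 : o * w ∈ S <;> by_cases h2 : w ∈ S <;> simp [h1, h2]
    rw [h3, hm.univ] at h2
    norm_num at h2
  have SK : ∀ x ∈ S, o⁻¹ * x ∈ K := by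
    intro x hx
    rw [memK]
    have h1 := hm.null_translate (o⁻¹ * x) _ (odd o ho)
    apply hm.null_of_subset _ (hm.union_null h1 (odd x hx))
    intro w hw
    by_contra h
    simp only [Set.mem_union, Set.mem_ofPred_eq, not_or, not_not] at h
    obtain ⟨h2, h3⟩ := h
    apply hw
    rw [mul_assoc, mul_inv_cancel_left] at h2
    rw [h2] at h3
    rw [mul_assoc]
    exact not_iff_not.1 h3
  have big : ∀ h : FreeGroup α, 1 / 2 ≤ m {w | h⁻¹ * w ∈ K} := by
    intro h
    rw [← hh (o * h⁻¹)]
    apply hm.mono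
    intro w hw
    have h1 := SK _ hw
    have h2 : o⁻¹ * (o * h⁻¹ * w) = h⁻¹ * w := by group
    rw [h2] at h1
    exact h1
  have two : ∀ h : FreeGroup α, h ∈ K ∨ o⁻¹ * h ∈ K := by
    intro h
    by_contra hcon
    push Not at hcon
    obtain ⟨c1, c2⟩ := hcon
    have b1 := big 1
    have b2 := big o
    have b3 := big h
    have d1 : Disjoint {w | (1 : FreeGroup α)⁻¹ * w ∈ K} {w | o⁻¹ * w ∈ K} := by
      rw [Set.disjoint_left]
      intro w h1 h2
      simp only [Set.mem_ofPred_eq, inv_one, one_mul] at h1 h2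
      apply oK
      have := K.mul_mem h1 (K.inv_mem h2)
      have e : w * (o⁻¹ * w)⁻¹ = o := by group
      rwa [e] at this
    have d2 : Disjoint ({w | (1 : FreeGroup α)⁻¹ * w ∈ K} ∪ {w | o⁻¹ * w ∈ K})
        {w | h⁻¹ * w ∈ K} := by
      rw [Set.disjoint_left]
      rintro w (h1 | h1) h2
      · simp only [Set.mem_ofPred_eq, inv_one, one_mul] at h1 h2
        apply c1
        have := K.mul_mem h1 (K.inv_mem h2)
        have e : w * (h⁻¹ * w)⁻¹ = h := by group
        rwa [e] at this
      · simp only [Set.mem_ofPred_eq] at h1 h2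
        apply c2
        have := K.mul_mem h1 (K.inv_mem h2)
        have e : o⁻¹ * w * (h⁻¹ * w)⁻¹ = o⁻¹ * h := by group
        rwa [e] at this
    have h1 := hm.add _ _ d2
    rw [hm.add _ _ d1] at h1
    have h2 := hm.mono (Set.subset_univ
      (({w | (1 : FreeGroup α)⁻¹ * w ∈ K} ∪ {w | o⁻¹ * w ∈ K}) ∪ {w | h⁻¹ * w ∈ K}))
    rw [hm.univ] at h2
    linarith
  refine ⟨K, ?_, ?_⟩
  · rw [Subgroup.index_eq_two_iff_exists_notMem_and']
    refine ⟨o⁻¹, fun h => oK (by simpa using K.inv_mem h), fun b => ?_⟩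
    exact (two b).symm
  · intro x hx hxK
    apply oK
    have := K.mul_mem hxK (K.inv_mem (SK x hx))
    have e : x * (o⁻¹ * x)⁻¹ = o := by group
    rwa [e] at this

end Mean

/-- The labelling of the letters attached to a subgroup of index two. -/
lemma labelling {α : Type*} [DecidableEq α] (K : Subgroup (FreeGroup α)) (hK : K.index = 2) :
    ∃ lam : α × Bool → ZMod 2, (∀ a : α, lam (a, false) = - lam (a, true)) ∧
      ∀ w, w ∉ K → (w.toWord.map lam).sum = 1 := by
  classical
  refine ⟨fun a => if g a ∈ K then 0 else 1, ?_, ?_⟩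
  · intro a
    have h : g (a, false) ∈ K ↔ g (a, true) ∈ K := by
      have : g (a, false) = (g (a, true))⁻¹ := g_bar (a, true)
      rw [this, K.inv_mem_iff]
    by_cases h1 : g (a, true) ∈ K
    · simp [h, h1]
    · simp only [h, h1, if_false]; decide
  · have key : ∀ l : List (α × Bool), (l.map (fun a => if g a ∈ K then (0 : ZMod 2) else 1)).sum
        = if FreeGroup.mk l ∈ K then 0 else 1 := by
      intro l
      induction l with
      | nil =>
        have : (FreeGroup.mk ([] : List (α × Bool))) = 1 := rfl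
        simp [this, K.one_mem]
      | cons a l ih =>
        have e : FreeGroup.mk (a :: l) = g a * FreeGroup.mk l := by simp [g]
        rw [List.map_cons, List.sum_cons, ih, e]
        have h := Subgroup.mul_mem_iff_of_index_two hK (a := g a) (b := FreeGroup.mk l)
        by_cases h1 : g a ∈ K <;> by_cases h2 : FreeGroup.mk l ∈ K <;>
          simp only [h, h1, h2, if_true, if_false, iff_self, iff_false, iff_true,
            not_true_eq_false] <;> decide
    intro w hw
    have := key w.toWord
    rw [FreeGroup.mk_toWord, if_neg hw] at this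
    exact this

/-- **Theorem.** Let `F` be the free group on a finite nonempty alphabet and let `S ⊆ F` be
product-free with upper Banach density `1/2`. Then `S` is contained in a parity class
`T_λ = {w : λ(w) = 1}` for some labelling `λ` of the letters by `ℤ/2ℤ`. -/
theorem result {α : Type*} [DecidableEq α] [Fintype α] [Nonempty α]
    (S : Set (FreeGroup α)) (hS : ∀ x ∈ S, ∀ y ∈ S, x * y ∉ S) (hd : upperDensity S = 1 / 2) :
    ∃ lam : α × Bool → ZMod 2, (∀ a : α, lam (a, false) = - lam (a, true)) ∧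
      ∀ w ∈ S, (w.toWord.map lam).sum = 1 := by
  -- a sequence of intervals along which the density tends to the upper density
  have hseq : ∀ k : ℕ, ∃ p : ℕ × ℕ, (k, k) ≤ p ∧ 1 / 2 - 1 / ((k : ℝ) + 1) ≤ dens S p.1 p.2 := by
    intro k
    have hpos : (0 : ℝ) < 1 / ((k : ℝ) + 1) := by positivity
    have h1 : 1 / 2 - 1 / ((k : ℝ) + 1) < limsup (fun p : ℕ × ℕ => dens S p.1 p.2) atTop := by
      have : limsup (fun p : ℕ × ℕ => dens S p.1 p.2) atTop = 1 / 2 := hd
      rw [this]; linarith
    have h2 := Filter.frequently_lt_of_lt_limsup (by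
      refine ⟨0, ?_⟩
      intro b hb
      rw [Filter.eventually_map] at hb
      obtain ⟨x, hx⟩ := hb.exists
      exact (dens_nonneg S _ _).trans hx) h1
    obtain ⟨p, hp1, hp2⟩ := (h2.and_eventually (eventually_ge_atTop ((k, k) : ℕ × ℕ))).exists
    exact ⟨p, hp2, hp1.le⟩
  choose p hp1 hp2 using hseq
  have hp : Tendsto p atTop atTop := by
    rw [tendsto_atTop_atTop]
    intro b
    refine ⟨max b.1 b.2, fun k hk => ?_⟩
    have h1 := hp1 k
    exact ⟨(le_max_left _ _).trans (hk.trans h1.1), (le_max_right _ _).trans (hk.trans h1.2)⟩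
  obtain ⟨m, hm, hmS⟩ := exists_mean p hp S (1 / 2) (by
    intro ε hε
    obtain ⟨K, hK⟩ := exists_nat_gt (1 / ε)
    filter_upwards [eventually_ge_atTop K] with j hj
    refine le_trans ?_ (hp2 j)
    have h1 : 1 / ((j : ℝ) + 1) ≤ ε := by
      rw [div_le_iff₀ (by positivity)]
      rw [div_lt_iff₀ hε] at hK
      have : (K : ℝ) ≤ j := by exact_mod_cast hj
      nlinarith
    linarith)
  obtain ⟨K, hK, hSK⟩ := coset hm S hS (half hm S hS hmS)
  obtain ⟨lam, h1, h2⟩ := labelling K hK
  exact ⟨lam, h1, fun w hw => h2 w (hSK w hw)⟩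

end Pool.Agent.Results.MP_f60a12_co.DensityHalf
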